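import Mathlib

/-! Discrete Fourier coefficients of absolutely convergent power series, and Bessel's inequality. -/

set_option autoImplicit false

open Finset Filter Topology

namespace Pool.Agent.K1H28.BP

/-- the primitive root of unity -/
noncomputable def om (N : ℕ) : ℂ := Complex.exp (2 * Real.pi * Complex.I / N)

lemma om_prim {N : ℕ} (hN : N ≠ 0) : IsPrimitiveRoot (om N) N := Complex.isPrimitiveRoot_exp N hN

lemma om_norm {N : ℕ} (hN : N ≠ 0) : ‖om N‖ = 1 := (om_prim hN).norm'_eq_one hN

/-- orthogonality -/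
lemma geo {N : ℕ} (hN : N ≠ 0) (k : ℕ) :
    ∑ j ∈ range N, (om N ^ k) ^ j = if N ∣ k then (N : ℂ) else 0 := by
  split_ifs with h
  · have h1 : om N ^ k = 1 := (om_prim hN).pow_eq_one_iff_dvd k |>.2 h
    simp [h1]
  · have h1 : om N ^ k ≠ 1 := fun h2 => h ((om_prim hN).pow_eq_one_iff_dvd k |>.1 h2)
    have h2 : (om N ^ k) ^ N = 1 := by
      rw [← pow_mul, mul_comm, pow_mul, (om_prim hN).pow_eq_one, one_pow]
    rw [geom_sum_eq h1, h2, sub_self, zero_div]

/-- the discrete Fourier coefficient -/
noncomputable def cf (N : ℕ) (g : ℕ → ℂ) (a : ℕ) : ℂ :=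
  (N : ℂ)⁻¹ * ∑ j ∈ range N, (om N ^ (N - a)) ^ j * g j

lemma conj_om {N : ℕ} (hN : N ≠ 0) (k : ℕ) (hk : k ≤ N) :
    (starRingEnd ℂ) (om N ^ k) = om N ^ (N - k) := by
  have h1 : om N ^ k * om N ^ (N - k) = 1 := by
    rw [← pow_add, Nat.add_sub_cancel' hk, (om_prim hN).pow_eq_one]
  have h2 : ‖om N ^ k‖ = 1 := by rw [norm_pow, om_norm hN, one_pow]
  have h3 : om N ^ k * (starRingEnd ℂ) (om N ^ k) = 1 := by
    rw [Complex.mul_conj, Complex.normSq_eq_norm_sq, h2]; simp
  have h4 : om N ^ k ≠ 0 := by
    intro h; rw [h] at h1; simp at h1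
  exact mul_left_cancel₀ h4 (h3.trans h1.symm)

/-- Parseval for the finite group -/
lemma parseval {N : ℕ} (hN : N ≠ 0) (g : ℕ → ℂ) :
    ∑ a ∈ range N, ‖cf N g a‖ ^ 2 = (N : ℝ)⁻¹ * ∑ j ∈ range N, ‖g j‖ ^ 2 := by
  have hNc : (N : ℂ) ≠ 0 := by exact_mod_cast hN
  have key : (∑ a ∈ range N, ((‖cf N g a‖ ^ 2 : ℝ) : ℂ))
      = (N : ℂ)⁻¹ * ∑ j ∈ range N, ((‖g j‖ ^ 2 : ℝ) : ℂ) := by
    have h1 : ∀ a ∈ range N, ((‖cf N g a‖ ^ 2 : ℝ) : ℂ)
        = (N : ℂ)⁻¹ ^ 2 * ∑ j ∈ range N, ∑ i ∈ range N,
          g j * (starRingEnd ℂ) (g i) * (om N ^ (N * j - a * j + a * i)) := by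
      intro a ha
      have ha' : a ≤ N := (mem_range.1 ha).le
      have e1 : ((‖cf N g a‖ ^ 2 : ℝ) : ℂ) = cf N g a * (starRingEnd ℂ) (cf N g a) := by
        rw [Complex.mul_conj, Complex.normSq_eq_norm_sq]
      have e2 : (starRingEnd ℂ) (cf N g a)
          = (N : ℂ)⁻¹ * ∑ i ∈ range N, (om N ^ a) ^ i * (starRingEnd ℂ) (g i) := by
        unfold cf
        rw [map_mul, map_inv₀, Complex.conj_natCast, map_sum]
        congr 1
        refine sum_congr rfl fun i _ => ?_
        rw [map_mul, map_pow, conj_om hN _ (Nat.sub_le _ _)]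
        congr 2
        congr 1
        omega
      rw [e1, e2]
      unfold cf
      rw [mul_mul_mul_comm, ← pow_two, sum_mul_sum]
      congr 1
      refine sum_congr rfl fun j _ => sum_congr rfl fun i _ => ?_
      have e3 : om N ^ (N * j - a * j + a * i) = (om N ^ (N - a)) ^ j * (om N ^ a) ^ i := by
        rw [← pow_mul, ← pow_mul, ← pow_add, Nat.sub_mul]
      rw [e3]
      ring
    rw [sum_congr rfl h1, ← mul_sum]
    have h2 : ∑ a ∈ range N, ∑ j ∈ range N, ∑ i ∈ range N,
        g j * (starRingEnd ℂ) (g i) * (om N ^ (N * j - a * j + a * i))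
        = ∑ j ∈ range N, (N : ℂ) * ((‖g j‖ ^ 2 : ℝ) : ℂ) := by
      rw [sum_comm]
      refine sum_congr rfl fun j hj => ?_
      rw [sum_comm]
      have hj' : j < N := mem_range.1 hj
      have h3 : ∀ i ∈ range N, ∑ a ∈ range N,
          g j * (starRingEnd ℂ) (g i) * (om N ^ (N * j - a * j + a * i))
          = if i = j then (N : ℂ) * ((‖g j‖ ^ 2 : ℝ) : ℂ) else 0 := by
        intro i hi
        have hi' : i < N := mem_range.1 hi
        have h4 : ∀ a ∈ range N, om N ^ (N * j - a * j + a * i) = (om N ^ (i + (N - j))) ^ a := by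
          intro a ha
          have ha' : a ≤ N := (mem_range.1 ha).le
          have hd : ∀ x y : ℕ, (∃ k l : ℕ, x + N * k = y + N * l) → om N ^ x = om N ^ y := by
            rintro x y ⟨k, l, h⟩
            have e1 : om N ^ x = om N ^ (x + N * k) := by
              rw [pow_add, pow_mul, (om_prim hN).pow_eq_one, one_pow, mul_one]
            have e2 : om N ^ y = om N ^ (y + N * l) := by
              rw [pow_add, pow_mul, (om_prim hN).pow_eq_one, one_pow, mul_one]
            rw [e1, e2, h]
          rw [← pow_mul]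
          refine hd _ _ ⟨a, j, ?_⟩
          have e1 : a * j ≤ N * j := Nat.mul_le_mul_right j ha'
          have e2 : (i + (N - j)) * a + N * j = (N * j - a * j + a * i) + N * a := by
            zify [e1, hj'.le]
            ring
          exact e2.symm
        rw [← mul_sum, sum_congr rfl h4, geo hN]
        by_cases hij : i = j
        · subst hij
          have : N ∣ i + (N - i) := by rw [Nat.add_sub_cancel' hi'.le]
          rw [if_pos this, if_pos rfl, Complex.mul_conj, Complex.normSq_eq_norm_sq]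
          ring
        · have : ¬ N ∣ i + (N - j) := by
            rintro ⟨c, hc⟩
            have hc1 : 0 < c := by
              rcases Nat.eq_zero_or_pos c with h | h
              · subst h; omega
              · exact h
            have hc2 : c < 2 := by
              by_contra hcc
              push Not at hcc
              have : N * 2 ≤ N * c := Nat.mul_le_mul_left N hcc
              omega
            have : c = 1 := by omega
            subst this
            omega
          rw [if_neg this, if_neg hij, mul_zero]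
      rw [sum_congr rfl h3, sum_ite_eq' (range N) j, if_pos hj]
    rw [h2, ← mul_sum]
    field_simp
  have h := congrArg Complex.re key
  rw [← Complex.ofReal_sum, Complex.ofReal_re, ← Complex.ofReal_sum] at h
  rw [h]
  have : ((N : ℂ)⁻¹ * ((∑ j ∈ range N, ‖g j‖ ^ 2 : ℝ) : ℂ))
      = (((N : ℝ)⁻¹ * ∑ j ∈ range N, ‖g j‖ ^ 2 : ℝ) : ℂ) := by push_cast; ring
  rw [this, Complex.ofReal_re]

/-- aliasing -/
lemma cf_eq {N : ℕ} (hN : N ≠ 0) (u : ℕ → ℂ) (hu : Summable fun m => ‖u m‖) (a : ℕ) (ha : a < N) :
    cf N (fun j => ∑' m, (om N ^ j) ^ m * u m) a = ∑' m, if N ∣ m + (N - a) then u m else 0 := by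
  have hNc : (N : ℂ) ≠ 0 := by exact_mod_cast hN
  unfold cf
  have hs : ∀ j ∈ range N, Summable fun m => (om N ^ (N - a)) ^ j * ((om N ^ j) ^ m * u m) := by
    intro j _
    refine Summable.of_norm ?_
    refine hu.congr fun m => ?_
    rw [norm_mul, norm_mul, norm_pow, norm_pow, norm_pow, norm_pow, om_norm hN]
    simp
  have h1 : ∑ j ∈ range N, (om N ^ (N - a)) ^ j * (∑' m, (om N ^ j) ^ m * u m)
      = ∑' m, ∑ j ∈ range N, (om N ^ (N - a)) ^ j * ((om N ^ j) ^ m * u m) := by
    rw [Summable.tsum_finsetSum hs]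
    refine sum_congr rfl fun j _ => ?_
    rw [tsum_mul_left]
  rw [h1, ← tsum_mul_left]
  refine tsum_congr fun m => ?_
  have h2 : ∑ j ∈ range N, (om N ^ (N - a)) ^ j * ((om N ^ j) ^ m * u m)
      = (∑ j ∈ range N, (om N ^ (m + (N - a))) ^ j) * u m := by
    rw [sum_mul]
    refine sum_congr rfl fun j _ => ?_
    rw [pow_add, mul_pow, ← pow_mul, ← pow_mul, ← pow_mul, mul_comm j m]
    ring
  rw [h2, geo hN]
  split_ifs with h
  · field_simp
  · simp

/-- convergence of the discrete Fourier coefficients -/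
lemma cf_tendsto (u : ℕ → ℂ) (hu : Summable fun m => ‖u m‖) (a : ℕ) :
    Tendsto (fun N : ℕ => cf N (fun j => ∑' m, (om N ^ j) ^ m * u m) a) atTop (𝓝 (u a)) := by
  have h1 : Tendsto (fun N : ℕ => ∑' m, if N ∣ m + (N - a) then u m else 0) atTop
      (𝓝 (∑' m, if m = a then u m else 0)) := by
    refine tendsto_tsum_of_dominated_convergence (bound := fun m => ‖u m‖) hu ?_ ?_
    · intro m
      refine tendsto_const_nhds.congr' ?_
      filter_upwards [eventually_gt_atTop (a + m)] with N hN
      by_cases hm : m = a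
      · subst hm
        have : N ∣ m + (N - m) := by rw [Nat.add_sub_cancel' (by omega)]
        rw [if_pos rfl, if_pos this]
      · have : ¬ N ∣ m + (N - a) := by
          rintro ⟨c, hc⟩
          have hc1 : c = 1 := by
            rcases Nat.lt_or_ge c 1 with h | h
            · have : c = 0 := by omega
              subst this; omega
            · rcases Nat.lt_or_ge c 2 with h' | h'
              · omega
              · have : N * 2 ≤ N * c := Nat.mul_le_mul_left N h'
                omega
          subst hc1; omega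
        rw [if_neg hm, if_neg this]
    · refine Eventually.of_forall fun N m => ?_
      split_ifs
      · exact le_rfl
      · simp
  have h2 : (∑' m, if m = a then u m else 0) = u a := tsum_ite_eq a u
  rw [h2] at h1
  refine h1.congr' ?_
  filter_upwards [eventually_gt_atTop a] with N hN
  exact (cf_eq (by omega) u hu a hN).symm

end Pool.Agent.K1H28.BP
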