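import Pool.Agent.Y338.BP.G
import Pool.Agent.K1H28.BP.Dft

/-! The square function of the powers of the Beurling transform. -/

set_option autoImplicit false

open MeasureTheory Filter Topology Set
open scoped SchwartzMap ENNReal

namespace Pool.Agent.K1H28.BP

open Pool.Agent.Y338.BP Pool.Agent.TH55.PowA

/-- the powers -/
noncomputable def U (f : 𝓢(ℂ, ℂ)) (n : ℕ) (z : ℂ) : ℂ := T (fun ξ => bs ξ ^ n) f z

lemma U_cont (f : 𝓢(ℂ, ℂ)) (n : ℕ) : Continuous (U f n) := T_cont (adm_pow n) f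

lemma U_zero (f : 𝓢(ℂ, ℂ)) (z : ℂ) : U f 0 z = f z := T_zero f z

lemma U_bdd (f : 𝓢(ℂ, ℂ)) (n : ℕ) (z : ℂ) : ‖U f n z‖ ≤ ∫ ξ, ‖Ft f ξ‖ := by
  unfold U T
  refine (norm_integral_le_integral_norm _).trans ?_
  refine integral_mono (T_integrand_int (adm_pow n) f z).norm (Ft_int f).norm fun ξ => ?_
  simp only
  rw [norm_mul, norm_ex, one_mul, norm_mul]
  calc ‖bs ξ ^ n‖ * ‖Ft f ξ‖ ≤ 1 * ‖Ft f ξ‖ := by
        gcongr; exact (adm_pow n).le1 ξ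
    _ = _ := one_mul _

/-- the value at `ζ` -/
noncomputable def GG (f : 𝓢(ℂ, ℂ)) (ζ : ℂ) (z : ℂ) : ℂ :=
  ((1 - ‖ζ‖ ^ 2 : ℝ) : ℂ) * ∑' n : ℕ, ζ ^ n * U f n z - f z

lemma GG_cont (f : 𝓢(ℂ, ℂ)) (ζ : ℂ) (h : ‖ζ‖ < 1) : Continuous (GG f ζ) := by
  have hD : (((1 - ‖ζ‖ ^ 2 : ℝ)) : ℂ) ≠ 0 := by
    rw [Ne, Complex.ofReal_eq_zero]; exact (den_pos h).ne'
  have e : GG f ζ = ζ • T (fun ξ => bs (Ae (-ζ) (neg_lt h) ξ)) f := by
    funext z
    unfold GG U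
    rw [(hasSum_T ζ h f z).tsum_eq, Pi.smul_apply, smul_eq_mul, mul_div_cancel₀ _ hD]
    ring
  rw [e]
  exact (T_cont (adm_bs _ (neg_lt h)) f).const_smul ζ

lemma GG_bound {p : ℝ} (hp : 2 ≤ p) (f : 𝓢(ℂ, ℂ)) (ζ : ℂ) (h : ‖ζ‖ < 1) :
    eLpNorm (GG f ζ) (ENNReal.ofReal p) volume
      ≤ ENNReal.ofReal (‖ζ‖ * (p - 1)) * eLpNorm f (ENNReal.ofReal p) volume :=
  gen_sharp hp ζ h f

/-- the coefficients -/
noncomputable def cc (f : 𝓢(ℂ, ℂ)) (r : ℝ) (n : ℕ) (z : ℂ) : ℂ :=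
  ((1 - r ^ 2 : ℝ) : ℂ) * ((r : ℂ) ^ n * U f n z) - if n = 0 then f z else 0

lemma cc_cont (f : 𝓢(ℂ, ℂ)) (r : ℝ) (n : ℕ) : Continuous (cc f r n) := by
  unfold cc
  have := U_cont f n
  have := f.continuous
  split_ifs <;> fun_prop

lemma sum_U (f : 𝓢(ℂ, ℂ)) (w : ℂ) (hw : ‖w‖ < 1) (z : ℂ) :
    Summable fun n => ‖w ^ n * U f n z‖ := by
  refine Summable.of_nonneg_of_le (fun _ => norm_nonneg _)
    (fun n => ?_) ((summable_geometric_of_lt_one (norm_nonneg w) hw).mul_right (∫ ξ, ‖Ft f ξ‖))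
  rw [norm_mul, norm_pow]
  gcongr
  exact U_bdd f n z

lemma cc_sum (f : 𝓢(ℂ, ℂ)) (r : ℝ) (h0 : 0 ≤ r) (h1 : r < 1) (z : ℂ) :
    Summable fun n => ‖cc f r n z‖ := by
  have hr : ‖(r : ℂ)‖ < 1 := by rw [Complex.norm_real, Real.norm_of_nonneg h0]; exact h1
  have h2 := (sum_U f r hr z).mul_left ‖((1 - r ^ 2 : ℝ) : ℂ)‖
  have h3 : Summable fun n : ℕ => ‖(if n = 0 then f z else 0 : ℂ)‖ := by
    refine summable_of_ne_finset_zero (s := {0}) fun n hn => ?_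
    rw [Finset.notMem_singleton] at hn
    simp [hn]
  refine Summable.of_nonneg_of_le (fun _ => norm_nonneg _) (fun n => ?_) (h2.add h3)
  unfold cc
  refine (norm_sub_le _ _).trans ?_
  rw [norm_mul]

lemma GG_eq (f : 𝓢(ℂ, ℂ)) (r : ℝ) (h0 : 0 ≤ r) (h1 : r < 1) (w : ℂ) (hw : ‖w‖ = 1) (z : ℂ) :
    GG f (r * w) z = ∑' n, w ^ n * cc f r n z := by
  have hn : ‖(r : ℂ) * w‖ = r := by
    rw [norm_mul, hw, mul_one, Complex.norm_real, Real.norm_of_nonneg h0]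
  have hs : Summable fun n => ((r : ℂ) * w) ^ n * U f n z :=
    (sum_U f (r * w) (by rw [hn]; exact h1) z).of_norm
  have h3 : HasSum (fun n : ℕ => w ^ n * (if n = 0 then f z else 0 : ℂ)) (f z) := by
    have := hasSum_single (f := fun n : ℕ => w ^ n * (if n = 0 then f z else 0 : ℂ)) 0
      (fun n hn => by simp [hn])
    simpa using this
  unfold GG
  rw [hn]
  have h4 : HasSum (fun n => w ^ n * cc f r n z)
      (((1 - r ^ 2 : ℝ) : ℂ) * (∑' n, ((r : ℂ) * w) ^ n * U f n z) - f z) := by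
    have e : (fun n => w ^ n * cc f r n z) = fun n => ((1 - r ^ 2 : ℝ) : ℂ) *
        (((r : ℂ) * w) ^ n * U f n z) - w ^ n * (if n = 0 then f z else 0 : ℂ) := by
      funext n
      unfold cc
      rw [mul_pow]
      ring
    rw [e]
    exact (hs.hasSum.mul_left _).sub h3
  exact h4.tsum_eq.symm

/-- the values at the roots of unity -/
noncomputable def gg (f : 𝓢(ℂ, ℂ)) (r : ℝ) (N : ℕ) (z : ℂ) (j : ℕ) : ℂ := GG f (r * om N ^ j) z

lemma gg_norm {r : ℝ} (h0 : 0 ≤ r) {N : ℕ} (hN : N ≠ 0) (j : ℕ) : ‖(r : ℂ) * om N ^ j‖ = r := by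
  rw [norm_mul, norm_pow, om_norm hN, one_pow, mul_one, Complex.norm_real, Real.norm_of_nonneg h0]

lemma gg_cont (f : 𝓢(ℂ, ℂ)) {r : ℝ} (h0 : 0 ≤ r) (h1 : r < 1) {N : ℕ} (hN : N ≠ 0) (j : ℕ) :
    Continuous fun z => gg f r N z j :=
  GG_cont f _ (by rw [gg_norm h0 hN]; exact h1)

lemma sq_norm {p : ℝ} (hp : 2 ≤ p) (g : ℂ → ℂ) :
    eLpNorm (fun z => ‖g z‖ ^ (2 : ℝ)) (ENNReal.ofReal (p / 2)) volume
      = eLpNorm g (ENNReal.ofReal p) volume ^ (2 : ℝ) := by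
  rw [eLpNorm_norm_rpow g (by norm_num : (0 : ℝ) < 2)]
  congr 2
  rw [← ENNReal.ofReal_mul (by linarith)]
  congr 1
  ring

lemma disc_bound {p : ℝ} (hp : 2 ≤ p) (f : 𝓢(ℂ, ℂ)) {r : ℝ} (h0 : 0 ≤ r) (h1 : r < 1) (M N : ℕ)
    (hN : N ≠ 0) (hM : M ≤ N) :
    eLpNorm (fun z => ∑ a ∈ Finset.range M, ‖cf N (gg f r N z) a‖ ^ 2) (ENNReal.ofReal (p / 2)) volume
      ≤ (ENNReal.ofReal (r * (p - 1)) * eLpNorm f (ENNReal.ofReal p) volume) ^ (2 : ℝ) := by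
  have hp2 : 1 ≤ ENNReal.ofReal (p / 2) := by
    rw [← ENNReal.ofReal_one]; exact ENNReal.ofReal_le_ofReal (by linarith)
  have hN0 : (0 : ℝ) < N := by positivity
  have h2 : eLpNorm (fun z => ∑ a ∈ Finset.range M, ‖cf N (gg f r N z) a‖ ^ 2)
        (ENNReal.ofReal (p / 2)) volume
      ≤ eLpNorm (∑ j ∈ Finset.range N, fun z => (N : ℝ)⁻¹ • ‖gg f r N z j‖ ^ (2 : ℝ))
        (ENNReal.ofReal (p / 2)) volume := by
    refine eLpNorm_mono_real fun z => ?_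
    rw [Real.norm_of_nonneg (Finset.sum_nonneg fun _ _ => by positivity), Finset.sum_apply]
    have h3 := parseval hN (gg f r N z)
    have h4 : ∑ j ∈ Finset.range N, (N : ℝ)⁻¹ • ‖gg f r N z j‖ ^ (2 : ℝ)
        = (N : ℝ)⁻¹ * ∑ j ∈ Finset.range N, ‖gg f r N z j‖ ^ 2 := by
      rw [Finset.mul_sum]
      refine Finset.sum_congr rfl fun j _ => ?_
      rw [smul_eq_mul, Real.rpow_two]
    rw [h4, ← h3]
    refine Finset.sum_le_sum_of_subset_of_nonneg ?_ fun _ _ _ => by positivity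
    intro a ha
    rw [Finset.mem_range] at ha ⊢
    omega
  refine h2.trans ?_
  refine (eLpNorm_sum_le (fun j _ => ?_) hp2).trans ?_
  · have hc : Continuous (fun z => (N : ℝ)⁻¹ • ‖gg f r N z j‖ ^ (2 : ℝ)) :=
      ((gg_cont f h0 h1 hN j).norm.rpow_const
        (fun _ => Or.inr (by norm_num : (0 : ℝ) ≤ 2))).const_smul (N : ℝ)⁻¹
    exact hc.aestronglyMeasurable
  · have h5 : ∀ j ∈ Finset.range N, eLpNorm (fun z => (N : ℝ)⁻¹ • ‖gg f r N z j‖ ^ (2 : ℝ))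
        (ENNReal.ofReal (p / 2)) volume
        ≤ (N : ℝ≥0∞)⁻¹ * (ENNReal.ofReal (r * (p - 1)) *
          eLpNorm f (ENNReal.ofReal p) volume) ^ (2 : ℝ) := by
      intro j _
      have e1 : (fun z => (N : ℝ)⁻¹ • ‖gg f r N z j‖ ^ (2 : ℝ))
          = (N : ℝ)⁻¹ • fun z => ‖gg f r N z j‖ ^ (2 : ℝ) := rfl
      rw [e1, eLpNorm_const_smul, sq_norm hp]
      have e2 : ‖(N : ℝ)⁻¹‖ₑ = (N : ℝ≥0∞)⁻¹ := by
        rw [← ofReal_norm, Real.norm_of_nonneg (by positivity), ENNReal.ofReal_inv_of_pos hN0,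
          ENNReal.ofReal_natCast]
      rw [e2]
      gcongr
      have := GG_bound hp f (r * om N ^ j) (by rw [gg_norm h0 hN]; exact h1)
      rwa [gg_norm h0 hN] at this
    refine (Finset.sum_le_sum h5).trans ?_
    rw [Finset.sum_const, Finset.card_range, nsmul_eq_mul, ← mul_assoc,
      ENNReal.mul_inv_cancel (by exact_mod_cast hN) (ENNReal.natCast_ne_top N), one_mul]

lemma cf_gg_tendsto (f : 𝓢(ℂ, ℂ)) {r : ℝ} (h0 : 0 ≤ r) (h1 : r < 1) (z : ℂ) (a : ℕ) :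
    Tendsto (fun N : ℕ => cf N (gg f r N z) a) atTop (𝓝 (cc f r a z)) := by
  refine (cf_tendsto (fun n => cc f r n z) (cc_sum f r h0 h1 z) a).congr' ?_
  filter_upwards [eventually_ne_atTop 0] with N hN
  congr 1
  funext j
  unfold gg
  rw [GG_eq f r h0 h1 (om N ^ j) (by rw [norm_pow, om_norm hN, one_pow]) z]

lemma cf_cont (f : 𝓢(ℂ, ℂ)) {r : ℝ} (h0 : 0 ≤ r) (h1 : r < 1) {N : ℕ} (hN : N ≠ 0) (a : ℕ) :
    Continuous fun z => cf N (gg f r N z) a := by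
  unfold cf
  refine continuous_const.mul (continuous_finsetSum _ fun j _ => continuous_const.mul ?_)
  exact gg_cont f h0 h1 hN j

lemma fin_bound {p : ℝ} (hp : 2 ≤ p) (f : 𝓢(ℂ, ℂ)) {r : ℝ} (h0 : 0 ≤ r) (h1 : r < 1) (M : ℕ) :
    eLpNorm (fun z => ∑ a ∈ Finset.range M, ‖cc f r a z‖ ^ 2) (ENNReal.ofReal (p / 2)) volume
      ≤ (ENNReal.ofReal (r * (p - 1)) * eLpNorm f (ENNReal.ofReal p) volume) ^ (2 : ℝ) := by
  have h := MeasureTheory.Lp.eLpNorm_lim_le_liminf_eLpNorm (p := ENNReal.ofReal (p / 2))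
    (μ := (volume : Measure ℂ))
    (f := fun N z => ∑ a ∈ Finset.range M, ‖cf (N + (M + 1)) (gg f r (N + (M + 1)) z) a‖ ^ 2)
    (fun N => (continuous_finsetSum _ fun a _ =>
      ((cf_cont f h0 h1 (N := N + (M + 1)) (by omega) a).norm.pow 2)).aestronglyMeasurable)
    (fun z => ∑ a ∈ Finset.range M, ‖cc f r a z‖ ^ 2)
    (Eventually.of_forall fun z => by
      refine tendsto_finsetSum _ fun a _ => ?_
      exact (((cf_gg_tendsto f h0 h1 z a).comp (tendsto_add_atTop_nat (M + 1))).norm.pow 2))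
  refine h.trans ?_
  refine liminf_le_of_frequently_le' (Frequently.of_forall fun N => ?_)
  exact disc_bound hp f h0 h1 M _ (by omega) (by omega)

lemma cc_sq_sum (f : 𝓢(ℂ, ℂ)) {r : ℝ} (h0 : 0 ≤ r) (h1 : r < 1) (z : ℂ) :
    Summable fun n => ‖cc f r n z‖ ^ 2 := by
  have h := cc_sum f r h0 h1 z
  refine Summable.of_nonneg_of_le (fun _ => by positivity) (fun n => ?_)
    (h.mul_left (∑' n, ‖cc f r n z‖))
  rw [pow_two]
  gcongr
  exact h.le_tsum n (fun _ _ => norm_nonneg _)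

lemma all_bound {p : ℝ} (hp : 2 ≤ p) (f : 𝓢(ℂ, ℂ)) {r : ℝ} (h0 : 0 ≤ r) (h1 : r < 1) :
    eLpNorm (fun z => ∑' a, ‖cc f r a z‖ ^ 2) (ENNReal.ofReal (p / 2)) volume
      ≤ (ENNReal.ofReal (r * (p - 1)) * eLpNorm f (ENNReal.ofReal p) volume) ^ (2 : ℝ) := by
  have h := MeasureTheory.Lp.eLpNorm_lim_le_liminf_eLpNorm (p := ENNReal.ofReal (p / 2))
    (μ := (volume : Measure ℂ))
    (f := fun M z => ∑ a ∈ Finset.range M, ‖cc f r a z‖ ^ 2)
    (fun N => (continuous_finsetSum _ fun a _ =>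
      ((cc_cont f r a).norm.pow 2)).aestronglyMeasurable)
    (fun z => ∑' a, ‖cc f r a z‖ ^ 2)
    (Eventually.of_forall fun z => (cc_sq_sum f h0 h1 z).hasSum.tendsto_sum_nat)
  refine h.trans ?_
  exact liminf_le_of_frequently_le' (Frequently.of_forall fun N => fin_bound hp f h0 h1 N)

/-- the square function, multiplied by `r` -/
lemma sq_bound {p : ℝ} (hp : 2 ≤ p) (f : 𝓢(ℂ, ℂ)) {r : ℝ} (h0 : 0 ≤ r) (h1 : r < 1) :
    eLpNorm (fun z => √(∑' a, ‖cc f r a z‖ ^ 2)) (ENNReal.ofReal p) volume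
      ≤ ENNReal.ofReal (r * (p - 1)) * eLpNorm f (ENNReal.ofReal p) volume := by
  have h2 := sq_norm hp (fun z => ((√(∑' a, ‖cc f r a z‖ ^ 2) : ℝ) : ℂ))
  have h3 : (fun z => ‖((√(∑' a, ‖cc f r a z‖ ^ 2) : ℝ) : ℂ)‖ ^ (2 : ℝ))
      = fun z => ∑' a, ‖cc f r a z‖ ^ 2 := by
    funext z
    rw [Complex.norm_real, Real.norm_of_nonneg (Real.sqrt_nonneg _), Real.rpow_two,
      Real.sq_sqrt (tsum_nonneg fun _ => by positivity)]
  rw [h3] at h2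
  have h4 := all_bound hp f h0 h1
  rw [h2] at h4
  have h5 := (ENNReal.rpow_le_rpow_iff (by norm_num : (0 : ℝ) < 2)).1 h4
  refine le_trans (le_of_eq ?_) h5
  refine eLpNorm_congr_norm_ae (Eventually.of_forall fun z => ?_)
  rw [Complex.norm_real]

/-- the square function -/
noncomputable def SS (f : 𝓢(ℂ, ℂ)) (r : ℝ) (z : ℂ) : ℝ :=
  √(r ^ 2 * ‖f z‖ ^ 2 + (1 - r ^ 2) ^ 2 * ∑' m : ℕ, r ^ (2 * m) * ‖U f (m + 1) z‖ ^ 2)

lemma SS_eq (f : 𝓢(ℂ, ℂ)) {r : ℝ} (h0 : 0 ≤ r) (h1 : r < 1) (z : ℂ) :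
    √(∑' a, ‖cc f r a z‖ ^ 2) = r * SS f r z := by
  unfold SS
  have e0 : ∀ X : ℝ, r * √X = √(r ^ 2 * X) := fun X => by
    rw [Real.sqrt_mul (by positivity), Real.sqrt_sq h0]
  rw [e0]
  congr 1
  rw [(cc_sq_sum f h0 h1 z).tsum_eq_zero_add, mul_add, ← mul_assoc, ← mul_assoc, ← tsum_mul_left]
  congr 1
  · have : cc f r 0 z = ((-(r ^ 2) : ℝ) : ℂ) * f z := by
      unfold cc
      rw [U_zero, if_pos rfl]
      push_cast
      ring
    rw [this, norm_mul, Complex.norm_real, Real.norm_eq_abs, abs_neg, abs_of_nonneg (by positivity)]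
    ring
  · refine tsum_congr fun m => ?_
    have : cc f r (m + 1) z = (((1 - r ^ 2) * r ^ (m + 1) : ℝ) : ℂ) * U f (m + 1) z := by
      unfold cc
      rw [if_neg (Nat.succ_ne_zero m)]
      push_cast
      ring
    rw [this, norm_mul, Complex.norm_real, Real.norm_eq_abs, abs_of_nonneg]
    · ring
    · have : 0 ≤ 1 - r ^ 2 := by nlinarith
      positivity

/-- **the square function of the powers**, `0 < r < 1` -/
lemma SS_bound {p : ℝ} (hp : 2 ≤ p) (f : 𝓢(ℂ, ℂ)) {r : ℝ} (h0 : 0 < r) (h1 : r < 1) :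
    eLpNorm (SS f r) (ENNReal.ofReal p) volume
      ≤ ENNReal.ofReal (p - 1) * eLpNorm f (ENNReal.ofReal p) volume := by
  have h2 := sq_bound hp f h0.le h1
  have h3 : (fun z => √(∑' a, ‖cc f r a z‖ ^ 2)) = r • SS f r := by
    funext z
    rw [SS_eq f h0.le h1 z]
    rfl
  rw [h3, eLpNorm_const_smul, ← ofReal_norm, Real.norm_of_nonneg h0.le,
    ENNReal.ofReal_mul h0.le, mul_assoc] at h2
  have h4 : ENNReal.ofReal r ≠ 0 := by simpa using h0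
  exact (ENNReal.mul_le_mul_iff_right h4 ENNReal.ofReal_ne_top).1 h2

lemma SS_zero (f : 𝓢(ℂ, ℂ)) (z : ℂ) : SS f 0 z = ‖U f 1 z‖ := by
  unfold SS
  have h : (∑' m : ℕ, (0 : ℝ) ^ (2 * m) * ‖U f (m + 1) z‖ ^ 2) = ‖U f 1 z‖ ^ 2 := by
    rw [tsum_eq_single 0 fun m hm => by rw [zero_pow (by omega), zero_mul]]
    simp
  rw [h]
  simp

lemma SS_zero_bound {p : ℝ} (hp : 2 ≤ p) (f : 𝓢(ℂ, ℂ)) :
    eLpNorm (SS f 0) (ENNReal.ofReal p) volume
      ≤ ENNReal.ofReal (p - 1) * eLpNorm f (ENNReal.ofReal p) volume := by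
  refine le_trans (le_of_eq ?_) (base' p hp f)
  refine eLpNorm_congr_norm_ae (Eventually.of_forall fun z => ?_)
  rw [SS_zero, norm_norm]
  unfold U
  congr 2
  funext ξ
  rw [pow_one]

/-- the bound of a single power -/
lemma pow_bound {p : ℝ} (hp : 2 ≤ p) (f : 𝓢(ℂ, ℂ)) {r : ℝ} (h0 : 0 < r) (h1 : r < 1) (m : ℕ) :
    ENNReal.ofReal ((1 - r ^ 2) * r ^ m) * eLpNorm (U f (m + 1)) (ENNReal.ofReal p) volume
      ≤ ENNReal.ofReal (p - 1) * eLpNorm f (ENNReal.ofReal p) volume := by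
  refine le_trans ?_ (SS_bound hp f h0 h1)
  have hr : 0 ≤ 1 - r ^ 2 := by nlinarith
  have hw : 0 ≤ (1 - r ^ 2) * r ^ m := by positivity
  rw [← Real.norm_of_nonneg hw, ofReal_norm, ← eLpNorm_const_smul]
  refine eLpNorm_mono fun z => ?_
  rw [Pi.smul_apply, norm_smul, Real.norm_of_nonneg hw]
  unfold SS
  rw [Real.norm_of_nonneg (Real.sqrt_nonneg _)]
  refine Real.le_sqrt_of_sq_le ?_
  have hsum : Summable fun m : ℕ => r ^ (2 * m) * ‖U f (m + 1) z‖ ^ 2 := by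
    have h2 := (cc_sq_sum f h0.le h1 z).comp_injective (add_left_injective 1)
    have hne : 1 - r ^ 2 ≠ 0 := by nlinarith
    have hr0 : r ≠ 0 := h0.ne'
    refine (h2.mul_left ((1 - r ^ 2) ^ 2 * r ^ 2)⁻¹).congr fun m => ?_
    have : cc f r (m + 1) z = (((1 - r ^ 2) * r ^ (m + 1) : ℝ) : ℂ) * U f (m + 1) z := by
      unfold cc
      rw [if_neg (Nat.succ_ne_zero m)]
      push_cast
      ring
    simp only [Function.comp]
    rw [this, norm_mul, Complex.norm_real, Real.norm_of_nonneg (by positivity)]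
    field_simp
    ring
  have h3 := hsum.le_tsum m (fun _ _ => by positivity)
  have h4 : ((1 - r ^ 2) * r ^ m * ‖U f (m + 1) z‖) ^ 2
      = (1 - r ^ 2) ^ 2 * (r ^ (2 * m) * ‖U f (m + 1) z‖ ^ 2) := by ring
  rw [h4]
  have h5 : 0 ≤ r ^ 2 * ‖f z‖ ^ 2 := by positivity
  have h6 : (1 - r ^ 2) ^ 2 * (r ^ (2 * m) * ‖U f (m + 1) z‖ ^ 2)
      ≤ (1 - r ^ 2) ^ 2 * ∑' m : ℕ, r ^ (2 * m) * ‖U f (m + 1) z‖ ^ 2 := by gcongr
  linarith

/-- the constant, `CC 1 = 1` -/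
noncomputable def CC (n : ℕ) : ℝ :=
  ((n : ℝ) + 1) / 2 * (((n : ℝ) + 1) / ((n : ℝ) - 1)) ^ (((n : ℝ) - 1) / 2)

lemma CC_one : CC 1 = 1 := by
  unfold CC
  norm_num

lemma CC_pos {n : ℕ} (hn : 1 ≤ n) : 0 < CC n := by
  rcases Nat.eq_or_lt_of_le hn with h | h
  · rw [← h, CC_one]; norm_num
  · have h1 : (1 : ℝ) < n := by exact_mod_cast h
    have h2 : (0 : ℝ) < n - 1 := by linarith
    unfold CC
    positivity

lemma CC_bound {p : ℝ} (hp : 2 ≤ p) (f : 𝓢(ℂ, ℂ)) {n : ℕ} (hn : 1 ≤ n) :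
    eLpNorm (U f n) (ENNReal.ofReal p) volume
      ≤ ENNReal.ofReal (CC n * (p - 1)) * eLpNorm f (ENNReal.ofReal p) volume := by
  rcases Nat.eq_or_lt_of_le hn with h | h
  · rw [← h, CC_one, one_mul]
    refine le_trans (le_of_eq ?_) (SS_zero_bound hp f)
    refine eLpNorm_congr_norm_ae (Eventually.of_forall fun z => ?_)
    rw [SS_zero, norm_norm]
  · obtain ⟨m, rfl⟩ : ∃ m, n = m + 1 := ⟨n - 1, by omega⟩
    have hm : 1 ≤ m := by omega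
    have hm0 : (1 : ℝ) ≤ m := by exact_mod_cast hm
    have hx0 : (0 : ℝ) < m / (m + 2) := by positivity
    have hx1 : (m : ℝ) / (m + 2) < 1 := by rw [div_lt_one (by positivity)]; linarith
    set r : ℝ := √((m : ℝ) / (m + 2)) with hr
    have h0 : 0 < r := Real.sqrt_pos.2 hx0
    have hr2 : r ^ 2 = m / (m + 2) := Real.sq_sqrt hx0.le
    have h1 : r < 1 := by
      rw [hr, Real.sqrt_lt' one_pos, one_pow]
      exact hx1
    have hb := pow_bound hp f h0 h1 m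
    have hw : 0 < (1 - r ^ 2) * r ^ m := by
      have : 0 < 1 - r ^ 2 := by rw [hr2]; linarith
      positivity
    have hC : CC (m + 1) = ((1 - r ^ 2) * r ^ m)⁻¹ := by
      have e1 : r ^ m = (((m : ℝ) / (m + 2)) ^ ((m : ℝ) / 2)) := by
        rw [hr, Real.sqrt_eq_rpow, ← Real.rpow_natCast, ← Real.rpow_mul hx0.le]
        congr 1
        ring
      have e2 : 1 - r ^ 2 = 2 / (m + 2) := by rw [hr2]; field_simp; ring
      rw [e1, e2, mul_inv, inv_div, ← Real.inv_rpow hx0.le, inv_div]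
      unfold CC
      push_cast
      have e3 : (m : ℝ) + 1 + 1 = m + 2 := by ring
      have e4 : (m : ℝ) + 1 - 1 = m := by ring
      rw [e3, e4]
    have h5 : ENNReal.ofReal ((1 - r ^ 2) * r ^ m) ≠ 0 := by
      rw [Ne, ENNReal.ofReal_eq_zero, not_le]; exact hw
    refine (ENNReal.mul_le_mul_iff_right h5 ENNReal.ofReal_ne_top).1 (hb.trans (le_of_eq ?_))
    rw [← mul_assoc, ← ENNReal.ofReal_mul hw.le, hC, ← mul_assoc, mul_inv_cancel₀ hw.ne', one_mul]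

lemma CC_le {n : ℕ} (hn : 1 ≤ n) : CC n < Real.exp 1 / 2 * (n + 1) := by
  rcases Nat.eq_or_lt_of_le hn with h | h
  · rw [← h, CC_one]
    have := Real.exp_one_gt_d9
    norm_num
  · have h1 : (1 : ℝ) < n := by exact_mod_cast h
    have h2 : (0 : ℝ) < n - 1 := by linarith
    unfold CC
    have h3 : (((n : ℝ) + 1) / ((n : ℝ) - 1)) ^ (((n : ℝ) - 1) / 2) < Real.exp 1 := by
      have hx : 0 < ((n : ℝ) + 1) / ((n : ℝ) - 1) := by positivity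
      rw [Real.rpow_def_of_pos hx, Real.exp_lt_exp]
      have h4 : Real.log (((n : ℝ) + 1) / ((n : ℝ) - 1)) < ((n : ℝ) + 1) / ((n : ℝ) - 1) - 1 :=
        Real.log_lt_sub_one_of_pos hx (by
          rw [Ne, div_eq_one_iff_eq h2.ne']; linarith)
      have h5 : ((n : ℝ) + 1) / ((n : ℝ) - 1) - 1 = 2 / ((n : ℝ) - 1) := by
        field_simp; ring
      rw [h5] at h4
      calc Real.log (((n : ℝ) + 1) / ((n : ℝ) - 1)) * (((n : ℝ) - 1) / 2)
          < 2 / ((n : ℝ) - 1) * (((n : ℝ) - 1) / 2) := by gcongr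
        _ = 1 := by field_simp
    calc ((n : ℝ) + 1) / 2 * (((n : ℝ) + 1) / ((n : ℝ) - 1)) ^ (((n : ℝ) - 1) / 2)
        < ((n : ℝ) + 1) / 2 * Real.exp 1 := by gcongr
      _ = _ := by ring

lemma CC_question {n : ℕ} (hn : 1 ≤ n) {p : ℝ} (hp : 2 ≤ p) :
    CC n * (p - 1) ≤ Real.exp 1 / 2 * (1 + 1 / n) * (n : ℝ) ^ (2 / p) *
      ((n : ℝ) ^ (1 - 2 / p) * (p - 1)) := by
  have hn0 : (0 : ℝ) < n := by exact_mod_cast hn
  have h1 : (n : ℝ) ^ (2 / p) * (n : ℝ) ^ (1 - 2 / p) = n := by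
    rw [← Real.rpow_add hn0]
    have : 2 / p + (1 - 2 / p) = 1 := by ring
    rw [this, Real.rpow_one]
  have h2 : Real.exp 1 / 2 * (1 + 1 / n) * (n : ℝ) ^ (2 / p) * ((n : ℝ) ^ (1 - 2 / p) * (p - 1))
      = Real.exp 1 / 2 * (n + 1) * (p - 1) := by
    calc Real.exp 1 / 2 * (1 + 1 / n) * (n : ℝ) ^ (2 / p) * ((n : ℝ) ^ (1 - 2 / p) * (p - 1))
        = Real.exp 1 / 2 * (1 + 1 / n) * ((n : ℝ) ^ (2 / p) * (n : ℝ) ^ (1 - 2 / p)) * (p - 1) := by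
          ring
      _ = _ := by rw [h1]; field_simp
  rw [h2]
  have h3 := (CC_le hn).le
  have h4 : 0 ≤ p - 1 := by linarith
  gcongr

end Pool.Agent.K1H28.BP
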